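import Pool.Agent.Results.MP_bde085_nt.EveryOneParameterFamily

/-!
Counts of the exceptional rational numbers, ordered by their height, and integers, for MP_bde085_nt.
-/

set_option autoImplicit false

namespace Pool.Agent.U365.SH

open Polynomial
open Pool.Agent.Results.MP_bde085_nt.EveryOneParameterFamily (IsFunction poleCount HoldsAt)

/-- The exponent `11 / 2 + 4 (d + 1) / (3 ε)`. -/
noncomputable def exponent (d : ℕ) (ε : ℝ) : ℝ := 11 / 2 + 4 * (d + 1) / (3 * ε)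

/-- The height of a rational number: the larger of its denominator and the absolute value of its numerator. -/
def height (t : ℚ) : ℕ := max t.num.natAbs t.den

lemma finite_rat (B : ℕ) : {t : ℚ | |t.num| ≤ (B : ℤ) ∧ t.den ≤ B}.Finite := by
  have h : (Set.Icc (-(B : ℤ)) B ×ˢ Set.Iic B).Finite := (Set.finite_Icc _ _).prod (Set.finite_Iic _)
  refine (h.preimage (f := fun t : ℚ => (t.num, t.den)) ?_).subset ?_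
  · intro a _ b _ hab
    exact Rat.ext (congrArg Prod.fst hab) (congrArg Prod.snd hab)
  · rintro t ⟨h1, h2⟩
    exact ⟨Set.mem_Icc.2 (abs_le.1 h1), h2⟩

lemma pow_le {C X ε ε' : ℝ} (hε : 0 < ε) (hX : 1 ≤ X) (hε' : 0 < ε') :
    C * ((⌊X⌋₊ : ℕ) : ℝ) ^ ε ≤ |C| * X ^ (ε + ε') := by
  have h6 : ((⌊X⌋₊ : ℕ) : ℝ) ^ ε ≤ X ^ ε :=
    Real.rpow_le_rpow (Nat.cast_nonneg _) (Nat.floor_le (by linarith)) hε.le
  have h7 : X ^ ε ≤ X ^ (ε + ε') := Real.rpow_le_rpow_of_exponent_le hX (by linarith)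
  exact (mul_le_mul_of_nonneg_right (le_abs_self _) (by positivity)).trans
    (mul_le_mul_of_nonneg_left (h6.trans h7) (abs_nonneg _))

theorem rat_count {d : ℕ} {A D : ℤ[X]} (hJ : IsFunction d A D) (h2 : 2 ≤ poleCount d D) {ε : ℝ} (hε : 0 < ε) {ε' : ℝ}
    (hε' : 0 < ε') : ∃ C : ℝ, ∀ X : ℝ, 1 ≤ X →
      {t : ℚ | (True ∧ ¬ HoldsAt (exponent d ε) A D t) ∧ (height t : ℝ) ≤ X}.Finite ∧
      ({t : ℚ | (True ∧ ¬ HoldsAt (exponent d ε) A D t) ∧ (height t : ℝ) ≤ X}.ncard : ℝ) ≤ C * X ^ (ε + ε') := by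
  obtain ⟨C, hC⟩ := (Pool.Agent.Results.MP_bde085_nt.EveryOneParameterFamily.result d A D hJ ε hε).2.1 h2
  refine ⟨|C|, fun X hX => ?_⟩
  have hX1 : 1 ≤ ⌊X⌋₊ := Nat.le_floor (by exact_mod_cast hX)
  have he : {t : ℚ | (True ∧ ¬ HoldsAt (exponent d ε) A D t) ∧ (height t : ℝ) ≤ X} ⊆
      {t : ℚ | |t.num| ≤ ((⌊X⌋₊ : ℕ) : ℤ) ∧ t.den ≤ ⌊X⌋₊ ∧ ¬ HoldsAt (11 / 2 + 4 * (d + 1) / (3 * ε)) A D t} := by
    rintro t ⟨⟨-, h3⟩, h4⟩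
    have h5 : height t ≤ ⌊X⌋₊ := Nat.le_floor h4
    obtain ⟨h6, h7⟩ := max_le_iff.1 h5
    exact ⟨by rw [Int.abs_eq_natAbs]; exact_mod_cast h6, h7, h3⟩
  have hf : {t : ℚ | |t.num| ≤ ((⌊X⌋₊ : ℕ) : ℤ) ∧ t.den ≤ ⌊X⌋₊ ∧
      ¬ HoldsAt (11 / 2 + 4 * (d + 1) / (3 * ε)) A D t}.Finite :=
    (finite_rat ⌊X⌋₊).subset fun t ht => ⟨ht.1, ht.2.1⟩
  refine ⟨hf.subset he, le_trans ?_ ((hC ⌊X⌋₊ hX1).trans (pow_le hε hX hε'))⟩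
  exact_mod_cast Set.ncard_le_ncard he hf

theorem int_count {d : ℕ} {A D : ℤ[X]} (hJ : IsFunction d A D) (h2 : 1 ≤ D.natDegree) {ε : ℝ} (hε : 0 < ε) {ε' : ℝ}
    (hε' : 0 < ε') : ∃ C : ℝ, ∀ X : ℝ, 1 ≤ X →
      {t : ℤ | (True ∧ ¬ HoldsAt (exponent d ε) A D (t : ℚ)) ∧ (t.natAbs : ℝ) ≤ X}.Finite ∧
      ({t : ℤ | (True ∧ ¬ HoldsAt (exponent d ε) A D (t : ℚ)) ∧ (t.natAbs : ℝ) ≤ X}.ncard : ℝ) ≤ C * X ^ (ε + ε') := by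
  obtain ⟨C, hC⟩ := (Pool.Agent.Results.MP_bde085_nt.EveryOneParameterFamily.result d A D hJ ε hε).2.2 h2
  refine ⟨|C|, fun X hX => ?_⟩
  have hX1 : 1 ≤ ⌊X⌋₊ := Nat.le_floor (by exact_mod_cast hX)
  have he : {t : ℤ | (True ∧ ¬ HoldsAt (exponent d ε) A D (t : ℚ)) ∧ (t.natAbs : ℝ) ≤ X} ⊆
      {t : ℤ | |t| ≤ ((⌊X⌋₊ : ℕ) : ℤ) ∧ ¬ HoldsAt (11 / 2 + 4 * (d + 1) / (3 * ε)) A D (t : ℚ)} := by
    rintro t ⟨⟨-, h3⟩, h4⟩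
    have h5 : t.natAbs ≤ ⌊X⌋₊ := Nat.le_floor h4
    exact ⟨by rw [Int.abs_eq_natAbs]; exact_mod_cast h5, h3⟩
  have hf : {t : ℤ | |t| ≤ ((⌊X⌋₊ : ℕ) : ℤ) ∧ ¬ HoldsAt (11 / 2 + 4 * (d + 1) / (3 * ε)) A D (t : ℚ)}.Finite :=
    (Set.finite_Icc (-((⌊X⌋₊ : ℕ) : ℤ)) ((⌊X⌋₊ : ℕ) : ℤ)).subset fun t ht => Set.mem_Icc.2 (abs_le.1 ht.1)
  refine ⟨hf.subset he, le_trans ?_ ((hC ⌊X⌋₊ hX1).trans (pow_le hε hX hε'))⟩
  exact_mod_cast Set.ncard_le_ncard he hf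

end Pool.Agent.U365.SH
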